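import Pool.Agent.H.MP_d87c46_gt.B

set_option linter.unusedSimpArgs false

namespace Pool.Agent.H.MP_33d18a_mp

open Pool.Agent.H.MP_d87c46_gt

variable {R : Type} [CommRing R]

lemma n4 (D : DR R) (i : Fin 4) : D.d i 4 = 0 := by
  rw [show (4 : R) = 2 + 2 by norm_num, D.add, D.n2, add_zero]

theorem two_d (E : DR R) {r T M q w N P h k : R} (ur : IsUnit r) (uA : IsUnit (E.d 1 M))
    (uw : IsUnit w) (r0 : E.d 0 r = -1) (r1 : E.d 1 r = 1) (m0 : E.d 0 M = 0)
    (e1 : E.d 0 T * E.d 1 M + 2 * (r * r) = 0) (e2 : 2 * E.d 1 T + w * N * E.d 1 M = 0)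
    (hq : ∀ i, w * E.d i q = E.d i T + w * N * E.d i M)
    (hw : ∀ i, E.d i w = w * (h * E.d i T - P * E.d i M)) (hN : N = 1 + P * q)
    (hP : E.d 0 P = 0) (e7 : q * q * w * k - r * r * (r * r) = 0) (k0 : E.d 0 k = 0)
    (k1 : E.d 1 k = 0) : (1 : R) = 0 := by
  have cr : ∀ f : R, r * f = 0 → f = 0 := fun f hf => (ur.mul_right_eq_zero).1 hf
  have cA : ∀ f : R, E.d 1 M * f = 0 → f = 0 := fun f hf => (uA.mul_right_eq_zero).1 hf
  have cw : ∀ f : R, w * f = 0 → f = 0 := fun f hf => (uw.mul_right_eq_zero).1 hf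
  have a0 : E.d 0 (E.d 1 M) = 0 := by rw [← E.c10, m0, E.zero]
  have q0 := hq 0
  have q1 := hq 1
  have w0 := hw 0
  have w1 := hw 1
  rw [m0] at q0 w0
  obtain ⟨ri, hri⟩ := ur.exists_right_inv
  obtain ⟨ai, hai⟩ := uA.exists_right_inv
  generalize E.d 1 M = A at *
  have q1' : 2 * E.d 1 q - N * A = 0 := cw _ (by linear_combination 2 * q1 + e2)
  have d0 := E.dz e7 0
  have d1 := E.dz e7 1
  simp only [E.sub, E.mul, r0, r1, k0, k1, w0, w1] at d0 d1
  have f7 : 2 * q * k + h * (r * r * (r * r)) - 2 * (r * A) = 0 :=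
    E.two _ (cr _ (cr _ (by
      linear_combination (-A) * d0 + (2 * q * k * A) * q0 + (2 * q * k + q * q * w * h * k) * e1
        - (2 * r * r * h) * e7)))
  have g7 : 2 * (r * A) - r * q * h * w * N * A - 8 * q = 0 :=
    cr _ (cr _ (cr _ (by
      linear_combination (2 * q) * d1 - (2 * q * q * w * k) * q1' - (q * q * q * w * k * h) * e2
        - (2 * N * A - 2 * q * P * A - q * h * w * N * A) * e7
        - (2 * A * (r * r * (r * r))) * hN)))
  obtain ⟨y, hy⟩ : ∃ y, r * r * r * y - A * q * w = 0 :=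
    ⟨A * q * w * (ri * ri * ri), by
      linear_combination (A * q * w * (r * ri * (r * ri) + r * ri + 1)) * hri⟩
  obtain ⟨j, hj⟩ : ∃ j, r * A * j - q = 0 :=
    ⟨q * ri * ai, by linear_combination (q * A * ai) * hri + q * hai⟩
  have hh : q * w * h - 2 * y + 2 = 0 :=
    cr _ (cr _ (cr _ (cr _ (by
      linear_combination (q * w) * f7 - 2 * e7 - (2 * r) * hy))))
  have f8 : 1 + N - y * N - 4 * j = 0 :=
    E.two _ (cr _ (cA _ (by linear_combination g7 + (r * N * A) * hh - 8 * hj)))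
  have dy : r * E.d 0 y - 2 + y = 0 := by
    have e := E.dz hy 0
    simp only [E.sub, E.mul, r0, a0, w0] at e
    exact cr _ (cr _ (by
      linear_combination e + A * q0 + (1 + q * w * h) * e1 - (2 * r * r) * hh))
  have dN : r * y * E.d 0 N + 2 * (N - 1) = 0 := by
    have e : E.d 0 N = P * E.d 0 q := by
      rw [hN, E.add, E.one, E.mul, hP]
      ring
    rw [e]
    exact cr _ (cr _ (by
      linear_combination (P * E.d 0 q) * hy + (A * q * P) * q0 + (q * P) * e1
        + (2 * r * r) * hN))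
  have dj : r * y * E.d 0 j - j * (y - 2) = 0 := by
    have e := E.dz hj 0
    simp only [E.sub, E.mul, r0, a0] at e
    exact cr _ (cr _ (cr _ (cA _ (by
      linear_combination (r * r * r * y) * e + E.d 0 q * hy + (A * q) * q0 + q * e1
        + (2 * r * r) * hj))))
  have f1 : 4 - 3 * y - N * y * (3 - 2 * y) = 0 := by
    have e := E.dz f8 0
    simp only [E.add, E.sub, E.mul, E.one, n4 E] at e
    linear_combination (r * y) * e - (1 - y) * dN + (y * N) * dy + 4 * dj - (y - 2) * f8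
  have f2 : N * y * (4 * y - 7) - 7 * y + 12 = 0 := by
    have e := E.dz f1 0
    simp only [E.add, E.sub, E.mul, E.one, n4 E, E.n2, E.n3] at e
    linear_combination (-r) * e - (3 - 2 * y) * dN - (3 + N * (3 - 4 * y)) * dy
  have y2 : y - 2 = 0 := E.sq _ 0 (E.two _ (by
    linear_combination (4 * y - 7) * f1 + (3 - 2 * y) * f2))
  have n1 : N - 1 = 0 := E.two _ (by linear_combination f1 + (3 - N - 2 * N * y) * y2)
  have j0 : j = 0 := E.two _ (E.two _ (by linear_combination -f8 - N * y2 - n1))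
  have q0' : q = 0 := by linear_combination -hj + (r * A) * j0
  exact cr _ (cr _ (cr _ (cr _ (by linear_combination -e7 + (q * w * k) * q0'))))

def rot (D : DR R) (e : R) (he : ∀ i, D.d i e = 0) : DR R where
  d := fun i f => ![D.d 0 f - e * D.d 1 f, D.d 0 f + e * D.d 1 f, D.d 2 f, D.d 3 f] i
  add := by
    intro i f g
    fin_cases i <;> simp [D.add] <;> ring
  mul := by
    intro i f g
    fin_cases i <;> simp [D.mul] <;> ring
  comm := by
    intro i j f
    fin_cases i <;> fin_cases j <;>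
      simp [D.add, D.sub, D.mul, he, D.c10, D.c20, D.c30, D.c21, D.c31, D.c32] <;> ring
  two := D.two
  three := D.three
  sq := D.sq

structure CO (D : DR R) (r s : R) : Prop where
  r0 : D.d 0 r = 0
  r1 : D.d 1 r = 1
  r2 : D.d 2 r = 0
  r3 : D.d 3 r = 0
  s0 : D.d 0 s = 0
  s1 : D.d 1 s = 0
  ur : IsUnit r
  us : IsUnit s

theorem killing (D : DR R) {r s a b c e : R} (h : CO D r s)
    (tt : b + r * D.d 0 a = 0) (rr : b + r * D.d 1 b = 0) (tr : D.d 1 a - D.d 0 b = 0)
    (t2 : D.d 2 a - r * r * D.d 0 c = 0) (t3 : D.d 3 a - r * r * (s * s) * D.d 0 e = 0)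
    (r2 : D.d 2 b + r * r * D.d 1 c = 0) (r3 : D.d 3 b + r * r * (s * s) * D.d 1 e = 0) :
    b = 0 ∧ ∀ i, D.d i a = 0 := by
  have cr : ∀ f : R, r * f = 0 → f = 0 := fun f hf => (h.ur.mul_right_eq_zero).1 hf
  have cs : ∀ f : R, s * f = 0 → f = 0 := fun f hf => (h.us.mul_right_eq_zero).1 hf
  have btt : r * r * D.d 0 (D.d 0 b) - 2 * b = 0 := by
    have e1 := D.dz tt 1
    have e2 := D.dz tr 0
    simp only [D.add, D.sub, D.mul, h.r1, D.c10] at e1 e2
    linear_combination r * e1 - r * r * e2 - rr - tt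
  have b0 : b = 0 := by
    have e1 := D.dz btt 1
    have e2 := D.dz (D.dz rr 0) 0
    simp only [D.add, D.sub, D.mul, h.r1, h.r0, D.c10, D.n2, D.zero] at e1 e2
    exact D.two _ (D.two _ (by linear_combination r * e1 - r * r * e2 - btt + 2 * rr))
  subst b0
  simp only [D.zero, zero_add, sub_zero] at *
  have a0 := cr _ tt
  have c1 := cr _ (cr _ (by linear_combination r2 : r * (r * D.d 1 c) = 0))
  have e1 := cr _ (cr _ (cs _ (cs _
    (by linear_combination r3 : s * (s * (r * (r * D.d 1 e))) = 0))))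
  have c0 : D.d 0 c = 0 := by
    have e := D.dz t2 1
    simp only [D.sub, D.mul, h.r1, D.c10, ← D.c21, tr, c1, D.zero] at e
    exact D.two _ (cr _ (by linear_combination -e))
  have e0 : D.d 0 e = 0 := by
    have e' := D.dz t3 1
    simp only [D.sub, D.mul, h.r1, h.s1, D.c10, ← D.c31, tr, e1, D.zero] at e'
    exact D.two _ (cr _ (cs _ (cs _ (by linear_combination -e'))))
  refine ⟨trivial, fun i => ?_⟩
  fin_cases i
  · exact a0
  · exact tr
  · rw [c0] at t2
    simpa using t2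
  · rw [e0] at t3
    simpa using t3

end Pool.Agent.H.MP_33d18a_mp
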