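import Pool.Agent.H.MP_33d18a_mp.A

set_option linter.unusedSimpArgs false

namespace Pool.Agent.H.MP_33d18a_mp

open Pool.Agent.H.MP_d87c46_gt

variable {R : Type} [CommRing R]

def GG (D : DR R) (T M Θ Φ u ρ S : R) (a b : Fin 4) : R :=
  -(D.d a T * D.d b M + D.d a M * D.d b T) - u * (D.d a M * D.d b M)
    - ρ * (D.d a Θ * D.d b Θ + S * S * (D.d a Φ * D.d b Φ))

def gs (r s : R) : Matrix (Fin 4) (Fin 4) R :=
  !![r * r, 0, 0, 0; 0, -(r * r), 0, 0; 0, 0, -(r * r * (r * r)), 0;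
    0, 0, 0, -(r * r * (r * r) * (s * s))]

lemma lie (D : DR R) {T M Θ Φ u ρ S C x2 x3 P A B Q : R} (kT : D.K P A B Q T = 0)
    (kM : D.K P A B Q M = 0) (k2 : D.K P A B Q Θ - x2 = 0) (k3 : D.K P A B Q Φ - x3 = 0)
    (ku : D.K P A B Q u = 0) (kρ : D.K P A B Q ρ = 0) (hS : ∀ i, D.d i S = C * D.d i Θ)
    (hx : ∀ a b, D.d a x2 * D.d b Θ + D.d a Θ * D.d b x2 + 2 * S * C * x2 * (D.d a Φ * D.d b Φ)
      + S * S * (D.d a x3 * D.d b Φ + D.d a Φ * D.d b x3) = 0) (a b : Fin 4) :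
    D.K P A B Q (GG D T M Θ Φ u ρ S a b)
      + (GG D T M Θ Φ u ρ S 0 b * D.d a P + GG D T M Θ Φ u ρ S 1 b * D.d a A
        + GG D T M Θ Φ u ρ S 2 b * D.d a B + GG D T M Θ Φ u ρ S 3 b * D.d a Q)
      + (GG D T M Θ Φ u ρ S a 0 * D.d b P + GG D T M Θ Φ u ρ S a 1 * D.d b A
        + GG D T M Θ Φ u ρ S a 2 * D.d b B + GG D T M Θ Φ u ρ S a 3 * D.d b Q) = 0 := by
  have t1 := D.dz kT a
  have t2 := D.dz kT b
  have x1 := D.dz kM a
  have x2' := D.dz kM b
  have y1 := D.dz k2 a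
  have y2 := D.dz k2 b
  have z1 := D.dz k3 a
  have z2 := D.dz k3 b
  have hx' := hx a b
  simp only [DR.K, GG, D.add, D.sub, D.mul, D.neg, hS] at *
  rw [D.comm a 0, D.comm a 1, D.comm a 2, D.comm a 3] at t1 x1 y1 z1
  rw [D.comm b 0, D.comm b 1, D.comm b 2, D.comm b 3] at t2 x2' y2 z2
  linear_combination (-D.d b M) * t1 - D.d a M * t2 - (D.d b T + u * D.d b M) * x1
    - (D.d a T + u * D.d a M) * x2' - (D.d a M * D.d b M) * ku
    - (D.d a Θ * D.d b Θ + S * S * (D.d a Φ * D.d b Φ)) * kρ - ρ * D.d b Θ * y1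
    - ρ * D.d a Θ * y2 - ρ * S * S * D.d b Φ * z1 - ρ * S * S * D.d a Φ * z2
    - (2 * ρ * S * C * D.d a Φ * D.d b Φ) * k2 - ρ * hx'

lemma dual (D : DR R) {T M Θ Φ u ρ S r s ri si : R} (hri : r * ri = 1) (hsi : s * si = 1)
    (hG : ∀ a b, GG D T M Θ Φ u ρ S a b = gs r s a b) (j : Fin 4) :
    D.K (-(ri * ri * ρ * D.d 0 Θ)) (ri * ri * ρ * D.d 1 Θ) (ri * ri * (ri * ri) * ρ * D.d 2 Θ)
      (ri * ri * (ri * ri) * (si * si) * ρ * D.d 3 Θ) (![T, M, Θ, Φ] j) = ![0, 0, 1, 0] j ∧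
    D.K (-(ri * ri * ρ * (S * S) * D.d 0 Φ)) (ri * ri * ρ * (S * S) * D.d 1 Φ)
      (ri * ri * (ri * ri) * ρ * (S * S) * D.d 2 Φ)
      (ri * ri * (ri * ri) * (si * si) * ρ * (S * S) * D.d 3 Φ) (![T, M, Θ, Φ] j)
      = ![0, 0, 0, 1] j := by
  let J : Matrix (Fin 4) (Fin 4) R := Matrix.of fun i a => D.d a (![T, M, Θ, Φ] i)
  let g : Matrix (Fin 4) (Fin 4) R :=
    !![0, -1, 0, 0; -1, -u, 0, 0; 0, 0, -ρ, 0; 0, 0, 0, -(ρ * (S * S))]
  have e1 : J.transpose * g * J = gs r s := by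
    ext a b
    rw [← hG]
    simp [J, g, GG, Matrix.mul_apply, Fin.sum_univ_four]
    ring
  have e0 : gs r s * gs ri si = 1 := by
    have h2 : r * r * (ri * ri) = 1 := by linear_combination (r * ri + 1) * hri
    have h3 : s * s * (si * si) = 1 := by linear_combination (s * si + 1) * hsi
    have h4 : r * r * (r * r) * (ri * ri * (ri * ri)) = 1 := by
      linear_combination (r * r * (ri * ri) + 1) * h2
    ext a b
    fin_cases a <;> fin_cases b <;> simp [gs, Matrix.mul_apply, Fin.sum_univ_four, h2, h4]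
    linear_combination (s * s * (si * si)) * h4 + h3
  have e2 : (J.transpose * g) * (J * gs ri si) = 1 := by
    rw [← Matrix.mul_assoc, e1, e0]
  have e3 := mul_eq_one_comm.1 e2
  have f2 := congrFun (congrFun e3 j) 2
  have f3 := congrFun (congrFun e3 j) 3
  fin_cases j <;> simp [J, g, gs, Matrix.mul_apply, Fin.sum_univ_four, Matrix.one_apply] at f2 f3 <;>
    simp [DR.K] <;> exact ⟨by linear_combination f2, by linear_combination f3⟩

lemma K_lin (D : DR R) (x y a b c e a' b' c' e' f : R) :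
    D.K (x * a + y * a') (x * b + y * b') (x * c + y * c') (x * e + y * e') f
      = x * D.K a b c e f + y * D.K a' b' c' e' f := by
  simp only [DR.K]
  ring

theorem main (D : DR R) (loc : ∀ f g : R, IsUnit (f + g) → IsUnit f ∨ IsUnit g)
    (u2 : IsUnit (2 : R)) {T M Θ Φ q w N P P' h S C s1 c1 r s : R} (co : CO D r s) (uw : IsUnit w)
    (hq : ∀ i, w * D.d i q = D.d i T + w * N * D.d i M)
    (hw : ∀ i, D.d i w = w * (h * D.d i T - P * D.d i M)) (hN : N = 1 + P * q)
    (hP : ∀ i, D.d i P = P' * D.d i M) (hS : ∀ i, D.d i S = C * D.d i Θ)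
    (hC : ∀ i, D.d i C = -(S * D.d i Θ)) (hSC : S * S + C * C = 1)
    (hs : ∀ i, D.d i s1 = c1 * D.d i Φ) (hc : ∀ i, D.d i c1 = -(s1 * D.d i Φ))
    (hsc : s1 * s1 + c1 * c1 = 1)
    (hG : ∀ a b, GG D T M Θ Φ (w * N) (q * q * w) S a b = gs r s a b) : (1 : R) = 0 := by
  obtain ⟨ri, hri⟩ := co.ur.exists_right_inv
  obtain ⟨si, hsi⟩ := co.us.exists_right_inv
  have cr : ∀ f : R, r * f = 0 → f = 0 := fun f hf => (co.ur.mul_right_eq_zero).1 hf
  have ci : ∀ f : R, ri * f = 0 → f = 0 := fun f hf => by linear_combination r * hf - f * hri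
  have cw : ∀ f : R, w * f = 0 → f = 0 := fun f hf => (uw.mul_right_eq_zero).1 hf
  have dl := dual D hri hsi hG
  obtain ⟨aT, bT⟩ := dl 0
  obtain ⟨aM, bM⟩ := dl 1
  obtain ⟨a2, b2⟩ := dl 2
  obtain ⟨a3, b3⟩ := dl 3
  simp only [Fin.isValue, Matrix.cons_val_zero, Matrix.cons_val_one, Matrix.cons_val] at aT bT aM bM a2 b2 a3 b3
  have uS : IsUnit S := IsUnit.of_mul_eq_one
    (S * (q * q * w) * (-(ri * ri * D.d 0 Φ * D.d 0 Φ) + ri * ri * D.d 1 Φ * D.d 1 Φ
      + ri * ri * (ri * ri) * D.d 2 Φ * D.d 2 Φ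
      + ri * ri * (ri * ri) * (si * si) * D.d 3 Φ * D.d 3 Φ)) (by
    simp only [DR.K] at b3
    linear_combination b3)
  have uρ : IsUnit (q * q * w) := IsUnit.of_mul_eq_one
    (S * S * (-(ri * ri * D.d 0 Φ * D.d 0 Φ) + ri * ri * D.d 1 Φ * D.d 1 Φ
      + ri * ri * (ri * ri) * D.d 2 Φ * D.d 2 Φ
      + ri * ri * (ri * ri) * (si * si) * D.d 3 Φ * D.d 3 Φ)) (by
    simp only [DR.K] at b3
    linear_combination b3)
  have cS : ∀ f : R, S * f = 0 → f = 0 := fun f hf => (uS.mul_right_eq_zero).1 hf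
  have cρ : ∀ f : R, q * q * w * f = 0 → f = 0 := fun f hf => (uρ.mul_right_eq_zero).1 hf
  obtain ⟨Si, hSi⟩ := uS.exists_right_inv
  obtain ⟨ct, hct⟩ : ∃ ct, S * ct - C = 0 := ⟨C * Si, by linear_combination C * hSi⟩
  have dct : ∀ i, S * S * D.d i ct + D.d i Θ = 0 := by
    intro i
    have e := D.dz hct i
    simp only [D.sub, D.mul, hS, hC] at e
    linear_combination S * e - (C * D.d i Θ) * hct - D.d i Θ * hSC
  generalize hA : -(ri * ri * (q * q * w) * D.d 0 Θ) = A at aT aM a2 a3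
  generalize hB : ri * ri * (q * q * w) * D.d 1 Θ = B at aT aM a2 a3
  generalize ri * ri * (ri * ri) * (q * q * w) * D.d 2 Θ = Cc at aT aM a2 a3
  generalize ri * ri * (ri * ri) * (si * si) * (q * q * w) * D.d 3 Θ = E at aT aM a2 a3
  generalize hA' : -(ri * ri * (q * q * w) * (S * S) * D.d 0 Φ) = A' at bT bM b2 b3
  generalize hB' : ri * ri * (q * q * w) * (S * S) * D.d 1 Φ = B' at bT bM b2 b3
  generalize ri * ri * (ri * ri) * (q * q * w) * (S * S) * D.d 2 Φ = Cc' at bT bM b2 b3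
  generalize ri * ri * (ri * ri) * (si * si) * (q * q * w) * (S * S) * D.d 3 Φ = E'
    at bT bM b2 b3
  have kil : ∀ x y : R, (∀ a b, D.d a x * D.d b Θ + D.d a Θ * D.d b x
      + 2 * S * C * x * (D.d a Φ * D.d b Φ) + S * S * (D.d a y * D.d b Φ + D.d a Φ * D.d b y) = 0) →
      x * B + y * B' = 0 ∧ ∀ i, D.d i (x * A + y * A') = 0 := by
    intro x y hx
    have kT : D.K (x * A + y * A') (x * B + y * B') (x * Cc + y * Cc') (x * E + y * E') T = 0 := by
      rw [K_lin, aT, bT]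
      ring
    have kM : D.K (x * A + y * A') (x * B + y * B') (x * Cc + y * Cc') (x * E + y * E') M = 0 := by
      rw [K_lin, aM, bM]
      ring
    have k2 : D.K (x * A + y * A') (x * B + y * B') (x * Cc + y * Cc') (x * E + y * E') Θ - x
        = 0 := by
      rw [K_lin, a2, b2]
      ring
    have k3 : D.K (x * A + y * A') (x * B + y * B') (x * Cc + y * Cc') (x * E + y * E') Φ - y
        = 0 := by
      rw [K_lin, a3, b3]
      ring
    generalize x * A + y * A' = a at *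
    generalize x * B + y * B' = b at *
    generalize x * Cc + y * Cc' = c at *
    generalize x * E + y * E' = e at *
    have kq : D.K a b c e q = 0 := cw _ (by
      simp only [DR.K] at kT kM ⊢
      linear_combination a * hq 0 + b * hq 1 + c * hq 2 + e * hq 3 + kT + w * N * kM)
    have kw : D.K a b c e w = 0 := by
      simp only [DR.K, hw] at kT kM ⊢
      linear_combination w * h * kT - w * P * kM
    have ku : D.K a b c e (w * N) = 0 := by
      simp only [DR.K, hN, D.add, D.mul, D.one, hP] at kM kq kw ⊢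
      linear_combination (1 + P * q) * kw + w * P' * q * kM + w * P * kq
    have kρ : D.K a b c e (q * q * w) = 0 := by
      simp only [DR.K, D.mul] at kq kw ⊢
      linear_combination 2 * q * w * kq + q * q * kw
    have L := lie D kT kM k2 k3 ku kρ hS hx
    simp only [hG] at L
    have L00 := L 0 0
    have L11 := L 1 1
    have L01 := L 0 1
    have L02 := L 0 2
    have L03 := L 0 3
    have L12 := L 1 2
    have L13 := L 1 3
    simp [gs, DR.K, D.zero, D.mul, D.neg, co.r0, co.r1, co.r2, co.r3]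
      at L00 L11 L01 L02 L03 L12 L13
    exact killing D co (c := c) (e := e) (D.two _ (cr _ (by linear_combination L00)))
      (D.two _ (cr _ (by linear_combination -L11))) (cr _ (cr _ (by linear_combination L01)))
      (cr _ (cr _ (by linear_combination L02))) (cr _ (cr _ (by linear_combination L03)))
      (cr _ (cr _ (by linear_combination -L12))) (cr _ (cr _ (by linear_combination -L13)))
  obtain ⟨p3, q3⟩ := kil 0 1 (fun a b => by simp [D.zero, D.one])
  obtain ⟨pc, qc⟩ := kil c1 (-(ct * s1)) (fun a b => by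
    simp only [D.neg, D.mul, hs, hc]
    linear_combination (-(s1 * D.d b Φ)) * dct a - (s1 * D.d a Φ) * dct b
      - (2 * S * c1 * D.d a Φ * D.d b Φ) * hct)
  obtain ⟨ps, qs⟩ := kil s1 (ct * c1) (fun a b => by
    simp only [D.neg, D.mul, hs, hc]
    linear_combination (c1 * D.d b Φ) * dct a + (c1 * D.d a Φ) * dct b
      - (2 * S * s1 * D.d a Φ * D.d b Φ) * hct)
  simp only [zero_mul, one_mul, zero_add] at p3 q3
  have B0 : B = 0 := by
    linear_combination c1 * pc + s1 * ps - B * hsc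
  have A0' : A' = 0 := by
    have e : s1 * (c1 * A + -(ct * s1) * A') - c1 * (s1 * A + ct * c1 * A') + ct * A' = 0 := by
      linear_combination (-(ct * A')) * hsc
    generalize c1 * A + -(ct * s1) * A' = ac at e qc
    generalize s1 * A + ct * c1 * A' = as at e qs
    have e0 := D.dz e 0
    have e1 := D.dz e 1
    have e2 := D.dz e 2
    have e3 := D.dz e 3
    simp only [D.add, D.sub, D.mul, qc, qs, q3, hs, hc] at e0 e1 e2 e3
    simp only [DR.K] at a2 a3
    linear_combination (-(S * S)) * (A * e0 + B * e1 + Cc * e2 + E * e3)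
      + A' * (A * dct 0 + B * dct 1 + Cc * dct 2 + E * dct 3) - A' * a2
      + (S * S * (c1 * ac + s1 * as)) * a3
  have A0 : A = 0 := by
    rw [A0'] at qc qs
    simp only [mul_zero, add_zero] at qc qs
    have e : s1 * (c1 * A) - c1 * (s1 * A) = 0 := by ring
    have hac : c1 * (c1 * A) + s1 * (s1 * A) = A := by linear_combination A * hsc
    generalize c1 * A = ac at e qc hac
    generalize s1 * A = as at e qs hac
    have e0 := D.dz e 0
    have e1 := D.dz e 1
    have e2 := D.dz e 2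
    have e3 := D.dz e 3
    simp only [D.add, D.sub, D.mul, qc, qs, hs, hc] at e0 e1 e2 e3
    simp only [DR.K] at b3
    linear_combination (A' * e0 + B' * e1 + Cc' * e2 + E' * e3) - (c1 * ac + s1 * as) * b3 - hac
  have t0 : D.d 0 Θ = 0 := cρ _ (ci _ (ci _ (by linear_combination -hA - A0)))
  have t1 : D.d 1 Θ = 0 := cρ _ (ci _ (ci _ (by linear_combination hB + B0)))
  have f0 : D.d 0 Φ = 0 := cS _ (cS _ (cρ _ (ci _ (ci _ (by linear_combination -hA' - A0')))))
  have f1 : D.d 1 Φ = 0 := cS _ (cS _ (cρ _ (ci _ (ci _ (by linear_combination hB' + p3)))))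
  have g00 := hG 0 0
  have g01 := hG 0 1
  have g11 := hG 1 1
  have g02 := hG 0 2
  have g12 := hG 1 2
  have g22 := hG 2 2
  simp [GG, gs, t0, t1, f0, f1] at g00 g01 g11 g02 g12 g22
  have fin : ∀ e : R, e * e = 1 → (∀ i, D.d i e = 0) → IsUnit (D.d 0 M + e * D.d 1 M) →
      (1 : R) = 0 := by
    intro e he de uA
    have cA : ∀ f : R, (D.d 0 M + e * D.d 1 M) * f = 0 → f = 0 :=
      fun f hf => (uA.mul_right_eq_zero).1 hf
    have e2 : 2 * (D.d 0 T + e * D.d 1 T) + w * N * (D.d 0 M + e * D.d 1 M) = 0 := cA _ (by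
      linear_combination -g00 - 2 * e * g01 - e * e * g11 + (r * r) * he)
    have e1' : (D.d 0 M + e * D.d 1 M) * (2 * (D.d 0 T - e * D.d 1 T)
        + w * N * (D.d 0 M - e * D.d 1 M)) + 4 * (r * r) = 0 := by
      linear_combination (-2) * g00 + 2 * e * e * g11 - (2 * r * r) * he
        - (D.d 0 M - e * D.d 1 M) * e2
    have m0 : D.d 0 M - e * D.d 1 M = 0 := D.two _ (D.two _ (cr _ (cr _ (by
      linear_combination (D.d 0 M - e * D.d 1 M) * e1' + (D.d 0 M + e * D.d 1 M) *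
        (g00 - 2 * e * g01 + e * e * g11 - (r * r) * he)))))
    have e1 : (D.d 0 T - e * D.d 1 T) * (D.d 0 M + e * D.d 1 M) + 2 * (e * r * (e * r)) = 0 :=
      D.two _ (by
        linear_combination e1' - (D.d 0 M + e * D.d 1 M) * w * N * m0 + (4 * r * r) * he)
    have m2 : D.d 2 M = 0 := D.two _ (cr _ (cr _ (by
      linear_combination D.d 2 M * e1 + (D.d 0 M + e * D.d 1 M) * (g02 - e * g12)
        + (D.d 0 M + e * D.d 1 M) * (D.d 2 T + w * N * D.d 2 M) * m0
        - (2 * r * r * D.d 2 M) * he)))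
    rw [m2] at g22
    refine two_d (rot D e de) (r := e * r) (T := T) (M := M) (q := q) (w := w) (N := N) (P := P)
      (h := h) (k := D.d 2 Θ * D.d 2 Θ + S * S * (D.d 2 Φ * D.d 2 Φ))
      ((IsUnit.of_mul_eq_one e he).mul co.ur) uA uw ?_ ?_ m0 e1 e2 ?_ ?_ hN ?_ ?_ ?_ ?_
    · simp [rot, D.mul, de, co.r0, co.r1, he]
    · simp [rot, D.mul, de, co.r0, co.r1, he]
    · intro i
      fin_cases i <;> simp [rot]
      · linear_combination hq 0 - e * hq 1
      · linear_combination hq 0 + e * hq 1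
      · exact hq 2
      · exact hq 3
    · intro i
      fin_cases i <;> simp only [rot, hw] <;> simp <;> ring
    · simp only [rot, hP]
      simp
      linear_combination P' * m0
    · linear_combination -g22 - (r * r * (r * r) * (e * e + 1)) * he
    · simp [rot, D.add, D.mul, hS, t0, t1, ← D.c20, ← D.c21, f0, f1, D.zero]
    · simp [rot, D.add, D.mul, hS, t0, t1, ← D.c20, ← D.c21, f0, f1, D.zero]
  have hu : IsUnit ((D.d 0 M + 1 * D.d 1 M) * (-(D.d 0 T - D.d 1 T))
      + (D.d 0 M + (-1) * D.d 1 M) * (-(D.d 0 T + D.d 1 T) - w * N * (D.d 0 M + D.d 1 M))) := by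
    have : (D.d 0 M + 1 * D.d 1 M) * (-(D.d 0 T - D.d 1 T))
      + (D.d 0 M + (-1) * D.d 1 M) * (-(D.d 0 T + D.d 1 T) - w * N * (D.d 0 M + D.d 1 M))
        = 2 * (r * r) := by linear_combination g00 - g11
    rw [this]
    exact u2.mul (co.ur.mul co.ur)
  rcases loc _ _ hu with h1 | h1
  · exact fin 1 (by ring) D.one (isUnit_of_mul_isUnit_left h1)
  · exact fin (-1) (by ring) (fun i => by rw [D.neg, D.one, neg_zero])
      (isUnit_of_mul_isUnit_left h1)

end Pool.Agent.H.MP_33d18a_mp
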