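import Pool.Agent.H.MP_33d18a_mp.B

set_option linter.unusedSimpArgs false

namespace Pool.Agent.H.MP_33d18a_mp

open Pool.Agent.H.MP_d87c46_gt Filter Topology

noncomputable def gSO (a b : ℝ) (x : V) : Matrix (Fin 4) (Fin 4) ℝ :=
  (a * x 0 ^ 2 + b * x 1 ^ 2) • Matrix.diagonal ![1, -1, -x 1 ^ 2, -(x 1 ^ 2 * Real.sin (x 2) ^ 2)]

noncomputable def gVS (ψ P F : ℝ → ℝ) (m : ℝ × ℝ → ℝ) (y : V) : Matrix (Fin 4) (Fin 4) ℝ :=
  let s := Real.exp ((ψ (y 0) - F (m (y 0, y 1))) / 2)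
  let N := 1 + P (m (y 0, y 1)) * y 1
  Matrix.diagonal ![(1 / s) ^ 2 / N, -(s ^ 2 / N), -(y 1 * s) ^ 2,
    -((y 1 * s) ^ 2 * Real.sin (y 2) ^ 2)]

def Adm (ψ P F : ℝ → ℝ) (m : ℝ × ℝ → ℝ) (U : Set (ℝ × ℝ)) : Prop :=
  IsOpen U ∧ ContDiffOn ℝ (⊤ : ℕ∞) m U ∧ ∀ z ∈ U,
    ContDiffAt ℝ (⊤ : ℕ∞) ψ z.1 ∧ ContDiffAt ℝ (⊤ : ℕ∞) P (m z) ∧ ContDiffAt ℝ (⊤ : ℕ∞) F (m z) ∧
    deriv F (m z) = P (m z) ∧ 0 < 1 + P (m z) * z.2 ∧
    fderiv ℝ m z (0, 1) = (1 + P (m z) * z.2)⁻¹ ∧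
    fderiv ℝ m z (1, 0) = -Real.exp (-ψ z.1) * (1 + P (m z) * z.2)⁻¹ * Real.exp (F (m z))

lemma pd_comp (i : Fin 4) (φ : ℝ → ℝ) (f : V → ℝ) (x : V) (hf : DifferentiableAt ℝ f x)
    (hφ : DifferentiableAt ℝ φ (f x)) :
    pd i (fun z => φ (f z)) x = deriv φ (f x) * pd i f x := by
  unfold pd
  rw [show (fun z => φ (f z)) = φ ∘ f from rfl,
    (hφ.hasDerivAt.comp_hasFDerivAt x hf.hasFDerivAt).fderiv]
  simp

lemma pd_comp2 (i : Fin 4) (m : ℝ × ℝ → ℝ) (f g : V → ℝ) (x : V) (hf : DifferentiableAt ℝ f x)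
    (hg : DifferentiableAt ℝ g x) (hm : DifferentiableAt ℝ m (f x, g x)) :
    pd i (fun z => m (f z, g z)) x
      = fderiv ℝ m (f x, g x) (1, 0) * pd i f x + fderiv ℝ m (f x, g x) (0, 1) * pd i g x := by
  have h := (hm.hasFDerivAt.comp x (hf.hasFDerivAt.prodMk hg.hasFDerivAt)).fderiv
  unfold pd
  rw [show (fun z => m (f z, g z)) = m ∘ fun z => (f z, g z) from rfl, h]
  simp only [ContinuousLinearMap.comp_apply, ContinuousLinearMap.prod_apply]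
  rw [show (fderiv ℝ f x (Pi.single i 1), fderiv ℝ g x (Pi.single i 1))
    = fderiv ℝ f x (Pi.single i 1) • ((1, 0) : ℝ × ℝ) + fderiv ℝ g x (Pi.single i 1) • (0, 1) by
      simp, map_add, map_smul, map_smul]
  simp only [smul_eq_mul]
  ring

lemma unit_mk {p : V} {f : V → ℝ} (hf : S p f) (h : f p ≠ 0) : IsUnit (mk f hf) := by
  refine IsUnit.of_mul_eq_one (mk (fun x => (f x)⁻¹) (ContDiffAt.inv hf h)) ?_
  rw [mk_mul, mk_one, mk_eq]
  filter_upwards [(ContDiffAt.continuousAt hf).eventually_ne h] with x hx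
  exact mul_inv_cancel₀ hx

lemma loc (p : V) (f g : Sm p) (h : IsUnit (f + g)) : IsUnit f ∨ IsUnit g := by
  obtain ⟨f, hf, rfl⟩ := ex_mk f
  obtain ⟨g, hg, rfl⟩ := ex_mk g
  obtain ⟨k, hk⟩ := h.exists_right_inv
  obtain ⟨k, hk', rfl⟩ := ex_mk k
  rw [mk_add, mk_mul, mk_one, mk_eq] at hk
  have := hk.self_of_nhds
  by_cases h1 : f p = 0
  · refine Or.inr (unit_mk hg fun h2 => ?_)
    simp [h1, h2] at this
  · exact Or.inl (unit_mk hf h1)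

lemma S.comp {p : V} {f : V → ℝ} {φ : ℝ → ℝ} (hf : S p f) (hφ : ContDiffAt ℝ (⊤ : ℕ∞) φ (f p)) :
    S p (fun z => φ (f z)) := ContDiffAt.comp p hφ hf

lemma cd_deriv {φ : ℝ → ℝ} {t : ℝ} (h : ContDiffAt ℝ (⊤ : ℕ∞) φ t) :
    ContDiffAt ℝ (⊤ : ℕ∞) (deriv φ) t :=
  (ContDiffAt.fderiv_right (m := (⊤ : ℕ∞)) h (by norm_cast)).clm_apply contDiffAt_const

theorem noiso (ψ P F : ℝ → ℝ) (m : ℝ × ℝ → ℝ) (U : Set (ℝ × ℝ)) (hA : Adm ψ P F m U)
    (W : Set V) (hW : IsOpen W) (p : V) (hp : p ∈ W) (Φ : V → V) (hΦ : ContDiffOn ℝ (⊤ : ℕ∞) Φ W)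
    (hU : ∀ x ∈ W, (Φ x 0, Φ x 1) ∈ U) (hr : p 1 ≠ 0) (hs : Real.sin (p 2) ≠ 0)
    (h : ∀ x ∈ W, ∀ a b, ∑ i, ∑ j,
      gVS ψ P F m (Φ x) i j * pd a (fun z => Φ z i) x * pd b (fun z => Φ z j) x
        = gSO 0 1 x a b) : False := by
  obtain ⟨hUo, hm, hz⟩ := hA
  have sΦ : ∀ x ∈ W, ∀ i, S x (fun z => Φ z i) := fun x hx i =>
    contDiffAt_pi.1 (hΦ.contDiffAt (hW.mem_nhds hx)) i
  have cm : ∀ x ∈ W, ContDiffAt ℝ (⊤ : ℕ∞) m (Φ x 0, Φ x 1) := fun x hx =>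
    hm.contDiffAt (hUo.mem_nhds (hU x hx))
  have sM : ∀ x ∈ W, S x (fun z => m (Φ z 0, Φ z 1)) := fun x hx =>
    ContDiffAt.comp x (cm x hx) (ContDiffAt.prodMk (sΦ x hx 0) (sΦ x hx 1))
  have dS : ∀ {x : V} {f : V → ℝ}, S x f → DifferentiableAt ℝ f x := fun hf =>
    ContDiffAt.differentiableAt hf (by simp)
  have dR : ∀ {t : ℝ} {f : ℝ → ℝ}, ContDiffAt ℝ (⊤ : ℕ∞) f t → DifferentiableAt ℝ f t := fun hf =>
    ContDiffAt.differentiableAt hf (by simp)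
  have sψ : ∀ x ∈ W, S x (fun z => ψ (Φ z 0)) := fun x hx => S.comp (sΦ x hx 0) (hz _ (hU x hx)).1
  have sF : ∀ x ∈ W, S x (fun z => F (m (Φ z 0, Φ z 1))) := fun x hx =>
    S.comp (sM x hx) (hz _ (hU x hx)).2.2.1
  have sP : S p (fun z => P (m (Φ z 0, Φ z 1))) := S.comp (sM p hp) (hz _ (hU p hp)).2.1
  have sP' : S p (fun z => deriv P (m (Φ z 0, Φ z 1))) :=
    S.comp (sM p hp) (cd_deriv (hz _ (hU p hp)).2.1)
  have sh : S p (fun z => deriv ψ (Φ z 0)) := S.comp (sΦ p hp 0) (cd_deriv (hz _ (hU p hp)).1)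
  have sw : S p (fun z => Real.exp (ψ (Φ z 0) - F (m (Φ z 0, Φ z 1)))) :=
    ContDiffAt.exp (ContDiffAt.sub (sψ p hp) (sF p hp))
  have ssin : ∀ i, S p (fun z => Real.sin (Φ z i)) := fun i => ContDiffAt.sin (sΦ p hp i)
  have scos : ∀ i, S p (fun z => Real.cos (Φ z i)) := fun i => ContDiffAt.cos (sΦ p hp i)
  have ss : S p (fun z => Real.sin (z 2)) := ContDiffAt.sin (sco p 2)
  have hn := hW.mem_nhds hp
  have dM : ∀ x ∈ W, ∀ i, pd i (fun z => m (Φ z 0, Φ z 1)) x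
      = (pd i (fun z => Φ z 1) x - (Real.exp (ψ (Φ x 0) - F (m (Φ x 0, Φ x 1))))⁻¹
        * pd i (fun z => Φ z 0) x) / (1 + P (m (Φ x 0, Φ x 1)) * Φ x 1) := by
    intro x hx i
    obtain ⟨-, -, -, -, -, h6, h7⟩ := hz _ (hU x hx)
    rw [pd_comp2 i m _ _ x (dS (sΦ x hx 0)) (dS (sΦ x hx 1))
      ((cm x hx).differentiableAt (by simp)), h6, h7, Real.exp_sub, Real.exp_neg]
    simp only [inv_div]
    ring
  have hsin : ∀ j i, (DD p).d i (mk _ (ssin j)) = mk _ (scos j) * (DD p).d i (mk _ (sΦ p hp j)) := by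
    intro j i
    simp only [DD_d, dg_mk, mk_mul, mk_eq]
    filter_upwards [hn] with x hx
    rw [pd_comp i Real.sin _ x (dS (sΦ x hx j)) (by fun_prop), Real.deriv_sin]
  have hcos : ∀ j i, (DD p).d i (mk _ (scos j))
      = -(mk _ (ssin j) * (DD p).d i (mk _ (sΦ p hp j))) := by
    intro j i
    simp only [DD_d, dg_mk, mk_mul, mk_neg, mk_eq]
    filter_upwards [hn] with x hx
    rw [pd_comp i Real.cos _ x (dS (sΦ x hx j)) (by fun_prop), Real.deriv_cos]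
    ring
  have hsc : ∀ j, mk _ (ssin j) * mk _ (ssin j) + mk _ (scos j) * mk _ (scos j) = 1 := by
    intro j
    simp only [mk_mul, mk_add, mk_one, mk_eq]
    exact Eventually.of_forall fun x => by
      simp only
      linear_combination Real.sin_sq_add_cos_sq (Φ x j)
  have := main (DD p) (loc p) (by rw [mk_two]; exact unit_mk _ (by norm_num))
    (T := mk _ (sΦ p hp 0)) (M := mk _ (sM p hp)) (Θ := mk _ (sΦ p hp 2)) (Φ := mk _ (sΦ p hp 3))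
    (q := mk _ (sΦ p hp 1)) (w := mk _ sw) (P := mk _ sP) (P' := mk _ sP') (h := mk _ sh)
    (r := mk _ (sco p 1)) (s := mk _ ss) ?_ (unit_mk _ (Real.exp_pos _).ne') ?_ ?_ rfl ?_
    (hsin 2) (hcos 2) (hsc 2) (hsin 3) (hcos 3) (hsc 3) ?_
  · rw [mk_one, mk_zero, mk_eq] at this
    exact one_ne_zero this.self_of_nhds
  · refine ⟨?_, ?_, ?_, ?_, ?_, ?_, unit_mk _ hr, unit_mk _ hs⟩ <;>
      simp only [DD_d, dg_mk, mk_zero, mk_one, mk_eq] <;>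
      refine Eventually.of_forall fun x => ?_
    any_goals
      simp [pd_co, dl]
      done
    all_goals
      rw [pd_comp _ Real.sin (fun z : V => z 2) x (by fun_prop) (by fun_prop), pd_co]
      simp [dl]
  · intro i
    simp only [DD_d, dg_mk, mk_mul, mk_add, mk_one, mk_eq]
    filter_upwards [hn] with x hx
    have h5 := (hz _ (hU x hx)).2.2.2.2.1.ne'
    have h6 := (Real.exp_pos (ψ (Φ x 0) - F (m (Φ x 0, Φ x 1)))).ne'
    rw [dM x hx]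
    simp only at h5
    field_simp
    ring
  · intro i
    simp only [DD_d, dg_mk, mk_mul, mk_sub, mk_eq]
    filter_upwards [hn] with x hx
    obtain ⟨h1, -, h3, h4, -⟩ := hz _ (hU x hx)
    rw [pd_comp i Real.exp _ x ((dS (sψ x hx)).fun_sub (dS (sF x hx))) (by fun_prop), Real.deriv_exp,
      pd_sub _ _ _ _ (dS (sψ x hx)) (dS (sF x hx)), pd_comp i ψ _ x (dS (sΦ x hx 0)) (dR h1),
      pd_comp i F _ x (dS (sM x hx)) (dR h3), h4]
  · intro i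
    simp only [DD_d, dg_mk, mk_mul, mk_eq]
    filter_upwards [hn] with x hx
    exact pd_comp i P _ x (dS (sM x hx)) (dR (hz _ (hU x hx)).2.1)
  · intro a b
    have e : gs (mk _ (sco p 1)) (mk _ ss) a b = mk (fun z => gSO 0 1 z a b) (by
        unfold S gSO
        fin_cases a <;> fin_cases b <;> simp <;> fun_prop) := by
      fin_cases a <;> fin_cases b <;> simp [gs, mk_mul, mk_neg, mk_zero, mk_eq, gSO] <;>
        refine Eventually.of_forall fun x => ?_ <;> ring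
    rw [e]
    simp only [GG, DD_d, dg_mk, mk_mul, mk_add, mk_sub, mk_neg, mk_one, mk_eq]
    filter_upwards [hn] with x hx
    have h5 := (hz _ (hU x hx)).2.2.2.2.1.ne'
    have h6 : Real.exp (ψ (Φ x 0) - F (m (Φ x 0, Φ x 1)))
        = Real.exp ((ψ (Φ x 0) - F (m (Φ x 0, Φ x 1))) / 2) ^ 2 := by
      rw [← Real.exp_nat_mul]
      congr 1
      push_cast
      ring
    have h7 := (Real.exp_pos ((ψ (Φ x 0) - F (m (Φ x 0, Φ x 1))) / 2)).ne'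
    rw [← h x hx a b, dM x hx, dM x hx, h6]
    simp only at h5
    simp [gVS, Fin.sum_univ_four, Matrix.diagonal]
    field_simp
    ring

end Pool.Agent.H.MP_33d18a_mp
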